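import Pool.Agent.H23.BG.Chain
import Pool.Agent.H31.FW.TargetsL
import Pool.Agent.H31.FW.TargetsG
import Pool.Agent.H31.FW.TargetsF
import Pool.Agent.H90.FW.MX
import Pool.Agent.H48.FW.LS
import Pool.Agent.H22.FW.LG
import Pool.Agent.H52.FW.CN
import Pool.Agent.H77.FW.L1
import Pool.Agent.H63.FW.L2
import Pool.Agent.H39.FW.LE
import Pool.Agent.H95.FW.LO
import Pool.Agent.H95.FW.CR
import Pool.Agent.H90.FW.GL
import Pool.Agent.H89.FW.CS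
import Pool.Agent.H46.FW.CC
import Pool.Agent.H3.FW.SG
import Pool.Agent.H90.FW.TR
import Pool.Agent.H69.FW.QW
import Pool.Agent.H18.FW.TT
import Pool.Agent.H19.FW.BS
import Pool.Agent.H22.FW.BP
import Pool.Agent.H54.FW.BQ
import Pool.Agent.H33.FW.WY
import Pool.Agent.H64.FW.FR
import Pool.Agent.H3.FW.WR

/-!
# The bound of Weyl for friable conductors: assembly
-/

set_option autoImplicit false

open NumberField NumberField.InfinitePlace Complex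

namespace Pool.Agent.H31.FWX.All

open Pool.Agent.H23.LB Pool.Agent.H23.LC Pool.Agent.H29.DW Pool.Agent.H29.DW.Base
open Pool.Agent.H29.DW.All
open Pool.Agent.H29.THC.Base (c_TH c_YC c_UI c_DU c_CT c_ID c_RX c_PU c_RR c_FP c_NS c_ME c_SY)
open Pool.Agent.H29.THC.All (a_CS a_EX a_CQ a_GX a_TR a_HR a_FG a_FP2)
open Pool.Agent.H23.BG.Chain Pool.Agent.H31.FW

theorem x_MX : Q_MX := Pool.Agent.H90.FW.MX.pf_MX
theorem x_LS : Q_LS := Pool.Agent.H48.FW.LS.pf_LS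
theorem x_LG : Q_LG := Pool.Agent.H22.FW.LG.pf_LG
theorem x_CN : Q_CN := Pool.Agent.H52.FW.CN.pf_CN
theorem x_L1 : Q_L1 := Pool.Agent.H77.FW.L1.pf_L1 x_MX
theorem x_L2 : Q_L2 := Pool.Agent.H63.FW.pf_L2 x_LS x_CN
theorem x_LE : Q_LE := Pool.Agent.H39.FW.LE.pf_LE x_LS x_CN
theorem x_LO : Q_LO := Pool.Agent.H95.FW.LO.pf_LO x_LG x_CN
theorem x_CR : Q_CR := Pool.Agent.H95.FW.CR.pf_CR
theorem x_GL : Q_GL := Pool.Agent.H90.FW.GL.pf_GL x_L1 x_L2 x_LE x_LO x_CR e_AC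
theorem x_CS : Q_CS := Pool.Agent.H89.FW.pf_CS x_GL a_CQ Pool.Agent.H29.THC.pf_DF
theorem x_CC : Q_CC := Pool.Agent.H46.FW.CC.pf_CC x_CS a_EX a_CQ Pool.Agent.H29.THC.pf_DF
theorem x_SG : Q_SG := Pool.Agent.H3.FW.pf_SG u_AG
theorem x_TR : Q_TR := Pool.Agent.H90.FW.TR.pf_TR a_FG a_FP2
theorem x_QW : Q_QW := Pool.Agent.H69.FW.QW.pf_QW c_TH c_RX d_AM d_PG
theorem x_TT : Q_TT := Pool.Agent.H18.FW.TT.pf_TT x_QW d_AO d_DI d_CT u_ZN c_TH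
theorem x_BS : Q_BS := Pool.Agent.H19.FW.BS.pf_BS d_IN x_TT d_MS d_PB c_RR c_TH c_YC c_FD
theorem x_BP : Q_BP := Pool.Agent.H22.FW.BP.pf_BP d_UP d_WL x_BS x_SG x_CC u_CG a_GX Pool.Agent.H29.THC.pf_DV Pool.Agent.H29.THC.pf_DF c_RX c_SY
theorem x_BQ : Q_BQ := Pool.Agent.H54.FW.BQ.pf_BQ d_UQ d_WL x_BS x_SG x_CC u_CG a_GX Pool.Agent.H29.THC.pf_DV Pool.Agent.H29.THC.pf_DF x_TR c_RX c_RR c_TH
theorem x_WY : Q_WY := Pool.Agent.H33.FW.pf_WY x_BP x_BQ d_AE d_GH u_FK a_HR c_SY Pool.Agent.H63.HK.ds u_DC u_GE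
theorem x_FR : Q_FR := Pool.Agent.H64.FW.FR.pf_FR
theorem x_WR : Q_WR := Pool.Agent.H3.FW.pf_WR x_WY x_FR

end Pool.Agent.H31.FWX.All
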